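import Pool.Agent.W79.BP.Defs

/-!
Project BP, part LARGE: the mixing bound for large `n` from the drift.
-/

set_option autoImplicit false

namespace Pool.Agent.W119.BP.LARGE

open Pool.Agent.W79.BP
open scoped Classical

variable {n : ℕ}

lemma mem_Au {γ : SimpleGraph (Fin n)} {σ : Equiv.Perm (Fin n)} :
    σ ∈ Au γ ↔ SimpleGraph.comap (⇑σ) γ = γ := by simp [Au]

lemma mem_Fx {γ : SimpleGraph (Fin n)} {σ : Equiv.Perm (Fin n)} :
    γ ∈ Fx σ ↔ SimpleGraph.comap (⇑σ) γ = γ := by simp [Fx]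

lemma one_mem_Au (γ : SimpleGraph (Fin n)) : (1 : Equiv.Perm (Fin n)) ∈ Au γ := by
  rw [mem_Au]
  ext u v
  simp

lemma Fx_one : Fx (1 : Equiv.Perm (Fin n)) = Finset.univ := by
  ext γ
  rw [mem_Fx]
  simp only [Finset.mem_univ, iff_true]
  ext u v
  simp

lemma Au_pos (γ : SimpleGraph (Fin n)) : (1 : ℝ) ≤ ((Au γ).card : ℝ) := by
  have : 0 < (Au γ).card := Finset.card_pos.mpr ⟨1, one_mem_Au γ⟩
  exact_mod_cast this

lemma bot_mem_Fx (σ : Equiv.Perm (Fin n)) : (⊥ : SimpleGraph (Fin n)) ∈ Fx σ := by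
  rw [mem_Fx]
  ext u v
  simp

lemma Fx_pos (σ : Equiv.Perm (Fin n)) : (1 : ℝ) ≤ ((Fx σ).card : ℝ) := by
  have : 0 < (Fx σ).card := Finset.card_pos.mpr ⟨⊥, bot_mem_Fx σ⟩
  exact_mod_cast this

/-- the number of graphs -/
noncomputable def G (n : ℕ) : ℝ := (Fintype.card (SimpleGraph (Fin n)) : ℝ)

lemma G_pos : 0 < G n := by
  unfold G
  have : 0 < Fintype.card (SimpleGraph (Fin n)) := Fintype.card_pos_iff.mpr ⟨⊥⟩
  exact_mod_cast this

lemma Fx_one_card : ((Fx (1 : Equiv.Perm (Fin n))).card : ℝ) = G n := by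
  rw [Fx_one, Finset.card_univ, G]

/-- the kernel without the identity -/
noncomputable def K0 (γ β : SimpleGraph (Fin n)) : ℝ :=
  ∑ σ ∈ (Au γ ∩ Au β).erase 1, 1 / (((Au γ).card : ℝ) * ((Fx σ).card : ℝ))

/-- the killed step -/
noncomputable def s0 (f : SimpleGraph (Fin n) → ℝ) : SimpleGraph (Fin n) → ℝ :=
  fun β => ∑ γ, f γ * K0 γ β

/-- the killed mass -/
noncomputable def m (f : SimpleGraph (Fin n) → ℝ) : ℝ := ∑ γ, f γ / ((Au γ).card : ℝ)

/-- the mean of `hh` -/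
noncomputable def w (γ : SimpleGraph (Fin n)) : ℝ :=
  (∑ τ ∈ Au γ, (hh τ : ℝ)) / ((Au γ).card : ℝ)

/-- the Lyapunov function -/
noncomputable def W (f : SimpleGraph (Fin n) → ℝ) : ℝ := ∑ γ, f γ * w γ

lemma K0_nonneg (γ β : SimpleGraph (Fin n)) : 0 ≤ K0 γ β :=
  Finset.sum_nonneg (fun σ _ => by positivity)

lemma w_nonneg (γ : SimpleGraph (Fin n)) : 0 ≤ w γ := by
  unfold w
  positivity

lemma s0_nonneg {f : SimpleGraph (Fin n) → ℝ} (hf : ∀ γ, 0 ≤ f γ) (β : SimpleGraph (Fin n)) :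
    0 ≤ s0 f β :=
  Finset.sum_nonneg (fun γ _ => mul_nonneg (hf γ) (K0_nonneg γ β))

lemma K_eq (γ β : SimpleGraph (Fin n)) :
    (∑ σ ∈ Au γ ∩ Au β, 1 / (((Au γ).card : ℝ) * ((Fx σ).card : ℝ))) =
      K0 γ β + 1 / (((Au γ).card : ℝ) * G n) := by
  have h1 : (1 : Equiv.Perm (Fin n)) ∈ Au γ ∩ Au β :=
    Finset.mem_inter.mpr ⟨one_mem_Au γ, one_mem_Au β⟩
  rw [← Finset.sum_erase_add _ _ h1, Fx_one_card, K0]

lemma stp_eq (f : SimpleGraph (Fin n) → ℝ) (β : SimpleGraph (Fin n)) :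
    stp f β = s0 f β + m f * (1 / G n) := by
  unfold stp s0 m
  rw [Finset.sum_mul, ← Finset.sum_add_distrib]
  refine Finset.sum_congr rfl (fun γ _ => ?_)
  rw [K_eq]
  have := Au_pos γ
  have := G_pos (n := n)
  field_simp

lemma sum_u : ∑ _β : SimpleGraph (Fin n), (1 / G n) = 1 := by
  rw [Finset.sum_const, Finset.card_univ, nsmul_eq_mul]
  have := G_pos (n := n)
  unfold G at *
  field_simp

/-- the point mass -/
noncomputable def pt (α : SimpleGraph (Fin n)) : SimpleGraph (Fin n) → ℝ :=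
  fun β => if β = α then 1 else 0

/-- the surviving mass -/
noncomputable def x (α : SimpleGraph (Fin n)) (t : ℕ) : SimpleGraph (Fin n) → ℝ := s0^[t] (pt α)

lemma x_succ (α : SimpleGraph (Fin n)) (t : ℕ) : x α (t + 1) = s0 (x α t) := by
  unfold x
  rw [Function.iterate_succ_apply']

lemma mu_succ (α : SimpleGraph (Fin n)) (t : ℕ) : mu α (t + 1) = stp (mu α t) := by
  unfold mu
  rw [Function.iterate_succ_apply']

lemma x_nonneg (α : SimpleGraph (Fin n)) (t : ℕ) : ∀ β, 0 ≤ x α t β := by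
  induction t with
  | zero =>
    intro β
    simp only [x, Function.iterate_zero, id, pt]
    split_ifs <;> norm_num
  | succ t ih =>
    rw [x_succ]
    exact s0_nonneg ih

/-- the total surviving mass -/
noncomputable def q (α : SimpleGraph (Fin n)) (t : ℕ) : ℝ := ∑ β, x α t β

lemma q_nonneg (α : SimpleGraph (Fin n)) (t : ℕ) : 0 ≤ q α t :=
  Finset.sum_nonneg (fun β _ => x_nonneg α t β)

lemma m_nonneg {f : SimpleGraph (Fin n) → ℝ} (hf : ∀ γ, 0 ≤ f γ) : 0 ≤ m f :=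
  Finset.sum_nonneg (fun γ _ => div_nonneg (hf γ) (by positivity))

lemma q_zero (α : SimpleGraph (Fin n)) : q α 0 = 1 := by
  simp [q, x, pt]

lemma sum_s0 (hS : S_STP) (f : SimpleGraph (Fin n) → ℝ) : ∑ β, s0 f β = ∑ β, f β - m f := by
  have h1 := (hS n).1 f
  have h2 : ∑ β, stp f β = ∑ β, s0 f β + m f := by
    simp_rw [stp_eq]
    rw [Finset.sum_add_distrib, ← Finset.mul_sum, sum_u, mul_one]
  linarith

lemma q_succ (hS : S_STP) (α : SimpleGraph (Fin n)) (t : ℕ) :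
    q α (t + 1) = q α t - m (x α t) := by
  unfold q
  rw [x_succ, sum_s0 hS]

lemma q_le_one (hS : S_STP) (α : SimpleGraph (Fin n)) (t : ℕ) : q α t ≤ 1 := by
  induction t with
  | zero => rw [q_zero]
  | succ t ih =>
    rw [q_succ hS]
    have := m_nonneg (x_nonneg α t)
    linarith

/-- the distance of the uniform distribution to the stationary one -/
noncomputable def E (n : ℕ) : ℝ := ∑ β : SimpleGraph (Fin n), |1 / G n - st β|

lemma E_nonneg : 0 ≤ E n := Finset.sum_nonneg (fun _ _ => abs_nonneg _)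

lemma y_bound (hS : S_STP) (α : SimpleGraph (Fin n)) (t : ℕ) :
    ∑ β, |mu α t β - x α t β - (1 - q α t) * st β| ≤ (1 - q α t) * E n := by
  induction t with
  | zero =>
    rw [q_zero]
    simp [mu, x, pt]
  | succ t ih =>
    obtain ⟨h1, h2, h3, h4, h5, h6, -⟩ := hS n
    have key : ∀ β, mu α (t + 1) β - x α (t + 1) β - (1 - q α (t + 1)) * st β =
        stp (fun β => mu α t β - x α t β - (1 - q α t) * st β) β +
          m (x α t) * (1 / G n - st β) := by
      intro β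
      have e1 : stp (fun β => mu α t β - x α t β - (1 - q α t) * st β) β =
          stp (mu α t) β - stp (x α t) β - (1 - q α t) * st β := by
        have a1 := congrFun (h5 (mu α t) (x α t) (-1)) β
        have a2 := congrFun (h5 (fun β => mu α t β + (-1) * x α t β) st (-(1 - q α t))) β
        have a3 := congrFun h2 β
        beta_reduce at a1 a2 a3
        have a4 : (fun β => mu α t β - x α t β - (1 - q α t) * st β) =
            (fun β => mu α t β + (-1) * x α t β + -(1 - q α t) * st β) := by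
          funext β
          ring
        rw [a4, a2, a1, a3]
        ring
      rw [e1, mu_succ, x_succ, q_succ hS, stp_eq (x α t) β]
      ring
    calc ∑ β, |mu α (t + 1) β - x α (t + 1) β - (1 - q α (t + 1)) * st β|
        = ∑ β, |stp (fun β => mu α t β - x α t β - (1 - q α t) * st β) β +
          m (x α t) * (1 / G n - st β)| := by
          refine Finset.sum_congr rfl (fun β _ => ?_)
          rw [key]
      _ ≤ ∑ β, (|stp (fun β => mu α t β - x α t β - (1 - q α t) * st β) β| +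
          m (x α t) * |1 / G n - st β|) := by
          refine Finset.sum_le_sum (fun β _ => ?_)
          refine (abs_add_le _ _).trans ?_
          rw [abs_mul, abs_of_nonneg (m_nonneg (x_nonneg α t))]
      _ = ∑ β, |stp (fun β => mu α t β - x α t β - (1 - q α t) * st β) β| +
          m (x α t) * E n := by
          rw [Finset.sum_add_distrib, ← Finset.mul_sum, E]
      _ ≤ (1 - q α t) * E n + m (x α t) * E n := by
          have := h6 (fun β => mu α t β - x α t β - (1 - q α t) * st β)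
          linarith
      _ = (1 - q α (t + 1)) * E n := by
          rw [q_succ hS]
          ring

lemma mu_bound (hS : S_STP) (α : SimpleGraph (Fin n)) (t : ℕ) :
    ∑ β, |mu α t β - st β| ≤ E n + 2 * q α t := by
  obtain ⟨h1, h2, h3, h4, h5, h6, -⟩ := hS n
  have hy := y_bound hS α t
  have hq0 := q_nonneg α t
  calc ∑ β, |mu α t β - st β|
      ≤ ∑ β, (|mu α t β - x α t β - (1 - q α t) * st β| + (x α t β + q α t * st β)) := by
        refine Finset.sum_le_sum (fun β _ => ?_)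
        have e : mu α t β - st β = (mu α t β - x α t β - (1 - q α t) * st β) +
          (x α t β - q α t * st β) := by ring
        rw [e]
        refine (abs_add_le _ _).trans ?_
        have b1 := x_nonneg α t β
        have b2 : 0 ≤ q α t * st β := mul_nonneg hq0 (h4 β)
        have : |x α t β - q α t * st β| ≤ x α t β + q α t * st β := by
          rw [abs_le]
          constructor <;> linarith
        linarith
    _ = ∑ β, |mu α t β - x α t β - (1 - q α t) * st β| + (q α t + q α t * 1) := by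
        rw [Finset.sum_add_distrib, Finset.sum_add_distrib, ← Finset.mul_sum, h3]
        rfl
    _ ≤ E n + 2 * q α t := by
        have : q α t * E n ≥ 0 := mul_nonneg hq0 E_nonneg
        nlinarith

lemma hh_one : hh (1 : Equiv.Perm (Fin n)) = 0 := by
  simp [hh]

lemma hh_pos {σ : Equiv.Perm (Fin n)} (h : σ ≠ 1) : 1 ≤ hh σ := by
  obtain ⟨y, hy⟩ : ∃ y, σ y ≠ y := by
    by_contra hc
    push Not at hc
    exact h (Equiv.ext hc)
  unfold hh
  have h1 : 1 ≤ (cy σ y).card := by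
    apply Finset.card_pos.mpr
    exact ⟨y, by simp [cy, Equiv.Perm.SameCycle.refl]⟩
  exact h1.trans (Finset.single_le_sum (f := fun x => (cy σ x).card) (fun _ _ => Nat.zero_le _)
    (Finset.mem_filter.mpr ⟨Finset.mem_univ _, hy⟩))

lemma hh_le (σ : Equiv.Perm (Fin n)) : hh σ ≤ n * n := by
  unfold hh
  calc ∑ x ∈ Finset.univ.filter (fun x => σ x ≠ x), (cy σ x).card
      ≤ ∑ x ∈ Finset.univ.filter (fun x => σ x ≠ x), n := by
        refine Finset.sum_le_sum (fun x _ => ?_)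
        calc (cy σ x).card ≤ (Finset.univ : Finset (Fin n)).card := Finset.card_le_univ _
          _ = n := by simp
    _ ≤ n * n := by
        rw [Finset.sum_const, smul_eq_mul]
        apply Nat.mul_le_mul_right
        calc _ ≤ (Finset.univ : Finset (Fin n)).card := Finset.card_le_univ _
          _ = n := by simp

lemma w_le (γ : SimpleGraph (Fin n)) : w γ ≤ (n : ℝ) ^ 2 := by
  unfold w
  have hp := Au_pos γ
  rw [div_le_iff₀ (by linarith)]
  calc ∑ τ ∈ Au γ, (hh τ : ℝ) ≤ ∑ _τ ∈ Au γ, (n : ℝ) ^ 2 := by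
        refine Finset.sum_le_sum (fun τ _ => ?_)
        have := hh_le τ
        calc (hh τ : ℝ) ≤ ((n * n : ℕ) : ℝ) := by exact_mod_cast this
          _ = (n : ℝ) ^ 2 := by push_cast; ring
    _ = (n : ℝ) ^ 2 * ((Au γ).card : ℝ) := by
        rw [Finset.sum_const, nsmul_eq_mul]
        ring

lemma one_sub_le_w (γ : SimpleGraph (Fin n)) : 1 - 1 / ((Au γ).card : ℝ) ≤ w γ := by
  unfold w
  have hp := Au_pos γ
  have h1 : ((Au γ).card : ℝ) - 1 ≤ ∑ τ ∈ Au γ, (hh τ : ℝ) := by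
    have h2 : ∑ τ ∈ (Au γ).erase 1, (hh τ : ℝ) ≤ ∑ τ ∈ Au γ, (hh τ : ℝ) :=
      Finset.sum_le_sum_of_subset_of_nonneg (Finset.erase_subset _ _)
        (fun _ _ _ => by positivity)
    have h3 : ∑ τ ∈ (Au γ).erase 1, (1 : ℝ) ≤ ∑ τ ∈ (Au γ).erase 1, (hh τ : ℝ) := by
      refine Finset.sum_le_sum (fun τ hτ => ?_)
      have := hh_pos (Finset.ne_of_mem_erase hτ)
      exact_mod_cast this
    have h4 : ∑ τ ∈ (Au γ).erase 1, (1 : ℝ) = ((Au γ).card : ℝ) - 1 := by
      rw [Finset.sum_const, nsmul_eq_mul, mul_one, Finset.card_erase_of_mem (one_mem_Au γ)]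
      have : 1 ≤ (Au γ).card := by exact_mod_cast hp
      push_cast [Nat.cast_sub this]
      ring
    linarith
  rw [le_div_iff₀ (by linarith), sub_mul, one_div, inv_mul_cancel₀ (by linarith)]
  linarith

lemma q_succ_le (hS : S_STP) (α : SimpleGraph (Fin n)) (t : ℕ) :
    q α (t + 1) ≤ W (x α t) := by
  rw [q_succ hS]
  unfold q m W
  rw [← Finset.sum_sub_distrib]
  refine Finset.sum_le_sum (fun γ _ => ?_)
  have h1 := one_sub_le_w γ
  have h2 := x_nonneg α t γ
  calc x α t γ - x α t γ / ((Au γ).card : ℝ) = x α t γ * (1 - 1 / ((Au γ).card : ℝ)) := by ring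
    _ ≤ x α t γ * w γ := mul_le_mul_of_nonneg_left h1 h2

lemma W_zero (α : SimpleGraph (Fin n)) : W (x α 0) ≤ (n : ℝ) ^ 2 := by
  have : W (x α 0) = w α := by
    simp [W, x, pt]
  rw [this]
  exact w_le α

/-- the swap of the sums -/
lemma swap_sum (γ : SimpleGraph (Fin n)) (g : SimpleGraph (Fin n) → ℝ) :
    ∑ β, K0 γ β * g β = (1 / ((Au γ).card : ℝ)) * ∑ σ ∈ (Au γ).erase 1,
      (1 / ((Fx σ).card : ℝ)) * ∑ β ∈ Fx σ, g β := by
  have h1 : ∀ β, K0 γ β * g β = ∑ σ ∈ (Au γ).erase 1, if β ∈ Fx σ then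
      (1 / ((Au γ).card : ℝ)) * (1 / ((Fx σ).card : ℝ)) * g β else 0 := by
    intro β
    unfold K0
    rw [Finset.sum_mul, ← Finset.sum_filter]
    have hs : (Au γ ∩ Au β).erase 1 = ((Au γ).erase 1).filter (fun σ => β ∈ Fx σ) := by
      ext σ
      simp only [Finset.mem_erase, Finset.mem_inter, Finset.mem_filter, mem_Fx, mem_Au]
      tauto
    rw [hs]
    refine Finset.sum_congr rfl (fun σ _ => ?_)
    rw [one_div_mul_one_div]
  simp_rw [h1]
  rw [Finset.sum_comm, Finset.mul_sum]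
  refine Finset.sum_congr rfl (fun σ _ => ?_)
  rw [← Finset.sum_filter]
  have hs : (Finset.univ.filter (fun β => β ∈ Fx σ)) = Fx σ := by
    ext β
    simp
  rw [hs, Finset.mul_sum, Finset.mul_sum]
  refine Finset.sum_congr rfl (fun β _ => ?_)
  ring

lemma W_s0_le (hA : S_AVG) (hn : 1 ≤ n)
    (hD : ∀ σ : Equiv.Perm (Fin n), σ ≠ 1 →
      2 * n * ∑ β ∈ Fx σ, DD β + hh σ * (Fx σ).card ≤ 2 * n * hh σ * (Fx σ).card)
    {f : SimpleGraph (Fin n) → ℝ} (hf : ∀ γ, 0 ≤ f γ) :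
    W (s0 f) ≤ (1 - 1 / (2 * (n : ℝ))) * W f := by
  have hn' : (1 : ℝ) ≤ (n : ℝ) := by exact_mod_cast hn
  have hwD : ∀ β : SimpleGraph (Fin n), w β ≤ (DD β : ℝ) := by
    intro β
    unfold w
    have hp := Au_pos β
    rw [div_le_iff₀ (by linarith)]
    have := hA n β
    calc ∑ τ ∈ Au β, (hh τ : ℝ) = ((∑ τ ∈ Au β, hh τ : ℕ) : ℝ) := by push_cast; rfl
      _ ≤ (((Au β).card * DD β : ℕ) : ℝ) := by exact_mod_cast this
      _ = (DD β : ℝ) * ((Au β).card : ℝ) := by push_cast; ring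
  have hin : ∀ σ : Equiv.Perm (Fin n), σ ≠ 1 →
      (1 / ((Fx σ).card : ℝ)) * ∑ β ∈ Fx σ, (DD β : ℝ) ≤
        (1 - 1 / (2 * (n : ℝ))) * (hh σ : ℝ) := by
    intro σ hσ
    have h1 := hD σ hσ
    have hp := Fx_pos σ
    have h2 : 2 * (n : ℝ) * ∑ β ∈ Fx σ, (DD β : ℝ) + (hh σ : ℝ) * ((Fx σ).card : ℝ) ≤
        2 * (n : ℝ) * (hh σ : ℝ) * ((Fx σ).card : ℝ) := by exact_mod_cast h1
    rw [one_div, inv_mul_le_iff₀ (by linarith)]
    have h3 : ((Fx σ).card : ℝ) * ((1 - 1 / (2 * (n : ℝ))) * (hh σ : ℝ)) =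
        (2 * (n : ℝ) * (hh σ : ℝ) * ((Fx σ).card : ℝ) - (hh σ : ℝ) * ((Fx σ).card : ℝ)) /
          (2 * (n : ℝ)) := by
      field_simp
    rw [h3, le_div_iff₀ (by linarith)]
    linarith
  calc W (s0 f) ≤ ∑ β, s0 f β * (DD β : ℝ) := by
        unfold W
        refine Finset.sum_le_sum (fun β _ => ?_)
        exact mul_le_mul_of_nonneg_left (hwD β) (s0_nonneg hf β)
    _ = ∑ γ, f γ * ∑ β, K0 γ β * (DD β : ℝ) := by
        unfold s0
        simp_rw [Finset.sum_mul, Finset.mul_sum]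
        rw [Finset.sum_comm]
        refine Finset.sum_congr rfl (fun γ _ => Finset.sum_congr rfl (fun β _ => ?_))
        ring
    _ ≤ ∑ γ, f γ * ((1 - 1 / (2 * (n : ℝ))) * w γ) := by
        refine Finset.sum_le_sum (fun γ _ => mul_le_mul_of_nonneg_left ?_ (hf γ))
        rw [swap_sum]
        have hp := Au_pos γ
        have h5 : ∑ σ ∈ (Au γ).erase 1, (1 / ((Fx σ).card : ℝ)) * ∑ β ∈ Fx σ, (DD β : ℝ) ≤
            (1 - 1 / (2 * (n : ℝ))) * ∑ σ ∈ Au γ, (hh σ : ℝ) := by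
          calc _ ≤ ∑ σ ∈ (Au γ).erase 1, (1 - 1 / (2 * (n : ℝ))) * (hh σ : ℝ) :=
                Finset.sum_le_sum (fun σ hσ => hin σ (Finset.ne_of_mem_erase hσ))
            _ = (1 - 1 / (2 * (n : ℝ))) * ∑ σ ∈ (Au γ).erase 1, (hh σ : ℝ) := by
                rw [Finset.mul_sum]
            _ ≤ _ := by
                have h6 : (0 : ℝ) ≤ 1 - 1 / (2 * (n : ℝ)) := by
                  rw [sub_nonneg, div_le_one (by linarith)]
                  linarith
                refine mul_le_mul_of_nonneg_left ?_ h6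
                exact Finset.sum_le_sum_of_subset_of_nonneg (Finset.erase_subset _ _)
                  (fun _ _ _ => by positivity)
        calc _ ≤ (1 / ((Au γ).card : ℝ)) * ((1 - 1 / (2 * (n : ℝ))) * ∑ σ ∈ Au γ, (hh σ : ℝ)) :=
              mul_le_mul_of_nonneg_left h5 (by positivity)
          _ = _ := by
              unfold w
              ring
    _ = (1 - 1 / (2 * (n : ℝ))) * W f := by
        unfold W
        rw [Finset.mul_sum]
        refine Finset.sum_congr rfl (fun γ _ => ?_)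
        ring

lemma W_le (hA : S_AVG) (hn : 1 ≤ n)
    (hD : ∀ σ : Equiv.Perm (Fin n), σ ≠ 1 →
      2 * n * ∑ β ∈ Fx σ, DD β + hh σ * (Fx σ).card ≤ 2 * n * hh σ * (Fx σ).card)
    (α : SimpleGraph (Fin n)) (t : ℕ) :
    W (x α t) ≤ (1 - 1 / (2 * (n : ℝ))) ^ t * (n : ℝ) ^ 2 := by
  have hn' : (1 : ℝ) ≤ (n : ℝ) := by exact_mod_cast hn
  have h6 : (0 : ℝ) ≤ 1 - 1 / (2 * (n : ℝ)) := by
    rw [sub_nonneg, div_le_one (by linarith)]
    linarith
  induction t with
  | zero =>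
    rw [pow_zero, one_mul]
    exact W_zero α
  | succ t ih =>
    rw [x_succ, pow_succ]
    calc W (s0 (x α t)) ≤ (1 - 1 / (2 * (n : ℝ))) * W (x α t) :=
          W_s0_le hA hn hD (x_nonneg α t)
      _ ≤ (1 - 1 / (2 * (n : ℝ))) * ((1 - 1 / (2 * (n : ℝ))) ^ t * (n : ℝ) ^ 2) :=
          mul_le_mul_of_nonneg_left ih h6
      _ = _ := by ring

lemma E_le (hS : S_STP)
    (hU : 16 * ∑ σ ∈ (Finset.univ : Finset (Equiv.Perm (Fin n))).erase 1, (Fx σ).card ≤
      Fintype.card (SimpleGraph (Fin n))) : E n ≤ 1 / 8 := by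
  obtain ⟨h1, h2, h3, h4, h5, h6, -⟩ := hS n
  have hG := G_pos (n := n)
  -- the sum of the orders of the automorphism groups
  have hZ : (∑ γ : SimpleGraph (Fin n), ((Au γ).card : ℝ)) =
      ∑ σ : Equiv.Perm (Fin n), ((Fx σ).card : ℝ) := by
    have e1 : ∀ γ : SimpleGraph (Fin n), ((Au γ).card : ℝ) =
        ∑ σ : Equiv.Perm (Fin n), if SimpleGraph.comap (⇑σ) γ = γ then (1 : ℝ) else 0 := by
      intro γ
      rw [Finset.sum_boole]
      rfl
    have e2 : ∀ σ : Equiv.Perm (Fin n), ((Fx σ).card : ℝ) =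
        ∑ γ : SimpleGraph (Fin n), if SimpleGraph.comap (⇑σ) γ = γ then (1 : ℝ) else 0 := by
      intro γ
      rw [Finset.sum_boole]
      rfl
    simp_rw [e1, e2]
    exact Finset.sum_comm
  have hZ2 : (∑ γ : SimpleGraph (Fin n), ((Au γ).card : ℝ)) ≤ 17 / 16 * G n := by
    rw [hZ, ← Finset.sum_erase_add _ _ (Finset.mem_univ (1 : Equiv.Perm (Fin n))), Fx_one_card]
    have hU' : 16 * ∑ σ ∈ (Finset.univ : Finset (Equiv.Perm (Fin n))).erase 1,
        ((Fx σ).card : ℝ) ≤ G n := by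
      unfold G
      exact_mod_cast hU
    linarith
  have hZ1 : G n ≤ (∑ γ : SimpleGraph (Fin n), ((Au γ).card : ℝ)) := by
    calc G n = ∑ _γ : SimpleGraph (Fin n), (1 : ℝ) := by
          rw [Finset.sum_const, Finset.card_univ, nsmul_eq_mul, mul_one, G]
      _ ≤ _ := Finset.sum_le_sum (fun γ _ => Au_pos γ)
  have hst : ∀ β : SimpleGraph (Fin n), 16 / 17 * (1 / G n) ≤ st β := by
    intro β
    unfold st
    rw [le_div_iff₀ (by linarith)]
    calc 16 / 17 * (1 / G n) * ∑ γ : SimpleGraph (Fin n), ((Au γ).card : ℝ)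
        ≤ 16 / 17 * (1 / G n) * (17 / 16 * G n) :=
          mul_le_mul_of_nonneg_left hZ2 (by positivity)
      _ = 1 := by field_simp
      _ ≤ ((Au β).card : ℝ) := Au_pos β
  unfold E
  calc ∑ β : SimpleGraph (Fin n), |1 / G n - st β|
      ≤ ∑ β : SimpleGraph (Fin n), (2 / 17 * (1 / G n) - (1 / G n - st β)) := by
        refine Finset.sum_le_sum (fun β _ => ?_)
        have hb := hst β
        have hg : 0 < 1 / G n := by positivity
        rw [abs_le]
        constructor <;> linarith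
    _ = 2 / 17 := by
        rw [Finset.sum_sub_distrib, Finset.sum_sub_distrib, h3, ← Finset.mul_sum, sum_u]
        norm_num
    _ ≤ 1 / 8 := by norm_num

lemma exp_bound {n t : ℕ} (hn : 1 ≤ n) (ht : 99 * (n + 1) ^ 2 ≤ t) :
    (1 - 1 / (2 * (n : ℝ))) ^ t * (n : ℝ) ^ 2 ≤ 1 / 16 := by
  have hn' : (1 : ℝ) ≤ (n : ℝ) := by exact_mod_cast hn
  have h6 : (0 : ℝ) ≤ 1 - 1 / (2 * (n : ℝ)) := by
    rw [sub_nonneg, div_le_one (by linarith)]
    linarith
  have ht' : 99 * ((n : ℝ) + 1) ^ 2 ≤ (t : ℝ) := by exact_mod_cast ht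
  set y : ℝ := (t : ℝ) / (2 * n) with hy
  have hyn : 49 * (n : ℝ) ≤ y := by
    rw [hy, le_div_iff₀ (by linarith)]
    nlinarith
  have h1 : (1 - 1 / (2 * (n : ℝ))) ^ t ≤ Real.exp (-y) := by
    have h2 : 1 - 1 / (2 * (n : ℝ)) ≤ Real.exp (-(1 / (2 * (n : ℝ)))) :=
      Real.one_sub_le_exp_neg _
    calc (1 - 1 / (2 * (n : ℝ))) ^ t ≤ (Real.exp (-(1 / (2 * (n : ℝ))))) ^ t :=
          pow_le_pow_left₀ h6 h2 t
      _ = Real.exp (-y) := by
          rw [← Real.exp_nat_mul, hy]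
          congr 1
          ring
  have hy0 : 0 ≤ y := by linarith
  have h3 : 1 + y + y ^ 2 / 2 ≤ Real.exp y := Real.quadratic_le_exp_of_nonneg hy0
  have h4 : 16 * (n : ℝ) ^ 2 ≤ Real.exp y := by nlinarith
  have h5 : 0 < Real.exp y := Real.exp_pos y
  calc (1 - 1 / (2 * (n : ℝ))) ^ t * (n : ℝ) ^ 2 ≤ Real.exp (-y) * (n : ℝ) ^ 2 :=
        mul_le_mul_of_nonneg_right h1 (by positivity)
    _ ≤ 1 / 16 := by
        rw [Real.exp_neg, inv_mul_le_iff₀ h5]
        linarith

theorem main : S_STP → S_DRIFT → S_AVG → S_UNI → S_LARGE := by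
  intro hS hD hA hU
  obtain ⟨n1, hD⟩ := hD
  obtain ⟨n2, hU⟩ := hU
  refine ⟨100, n1 + n2 + 1, ?_⟩
  intro n hn α t ht
  have hDn := hD n (by omega)
  have hUn := hU n (by omega)
  have hn1 : 1 ≤ n := by omega
  have hE := E_le hS hUn
  obtain ⟨s, rfl⟩ : ∃ s, t = s + 1 := by
    refine ⟨t - 1, ?_⟩
    have : 1 ≤ (n + 1) ^ 2 := Nat.one_le_pow _ _ (by omega)
    omega
  have hs : 99 * (n + 1) ^ 2 ≤ s := by
    have : 1 ≤ (n + 1) ^ 2 := Nat.one_le_pow _ _ (by omega)
    omega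
  have h1 := mu_bound hS α (s + 1)
  have h2 := q_succ_le hS α s
  have h3 := W_le hA hn1 hDn α s
  have h4 := exp_bound hn1 hs
  linarith

end Pool.Agent.W119.BP.LARGE
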